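import Pool.Agent.helper47.EIF.Spec

/-!
Row eif:MO0 (copy of helper78/PJ/MO2.lean with `moment_one`).
-/

set_option autoImplicit false

open Finset

namespace Pool.Agent.EIF

lemma MO0_Qd_nonneg (k n : ℕ) (c : ℕ → ℂ) : 0 ≤ Pool.Agent.PJ.Qd k n c := by
  unfold Pool.Agent.PJ.Qd
  refine Finset.sum_nonneg fun l _ => Finset.sum_nonneg fun i _ => ?_
  positivity

lemma MO0_mj_pow (k n : ℕ) (hk : 0 < k) (c : ℕ → ℂ) :
    Pool.Agent.PJ.mj k n c ^ (2 * k) = (2 * ((n : ℝ) + 1)) ^ (2 * k) * Pool.Agent.PJ.Qd k n c := by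
  unfold Pool.Agent.PJ.mj
  rw [mul_pow]
  congr 1
  rw [← Real.rpow_natCast, ← Real.rpow_mul (MO0_Qd_nonneg k n c)]
  have hk' : (k : ℝ) ≠ 0 := by positivity
  have : 1 / (2 * (k : ℝ)) * ((2 * k : ℕ) : ℝ) = 1 := by
    push_cast
    field_simp
  rw [this, Real.rpow_one]

lemma MO0_block (p : ℕ) [Fact p.Prime] (χ : MulChar (ZMod p) ℂ) (hχ : χ ≠ 1) (k n l i : ℕ) (_hk : 0 < k)
    (hn : 2 ^ n ≤ p) (hl : l ≤ n) :
    ∑ x : ZMod p, ‖∑ v ∈ range (2 ^ l), c0 χ x (i * 2 ^ l + v)‖ ^ (2 * k) ≤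
      (k : ℝ) ^ (2 * k) * ((2 : ℝ) ^ l) ^ k * p +
        ((2 : ℝ) ^ l) ^ (2 * k) * (2 * k * Real.sqrt p) := by
  classical
  set A : Finset (ZMod p) := (range (2 ^ l)).image (fun v : ℕ => -(v : ZMod p)) with hA
  have hlp : 2 ^ l ≤ p := le_trans (Nat.pow_le_pow_right (by norm_num) hl) hn
  have hinj : Set.InjOn (fun v : ℕ => -(v : ZMod p)) (range (2 ^ l) : Finset ℕ) := by
    intro a ha b hb hab
    have ha' : a < p := lt_of_lt_of_le (Finset.mem_range.1 (Finset.mem_coe.1 ha)) hlp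
    have hb' : b < p := lt_of_lt_of_le (Finset.mem_range.1 (Finset.mem_coe.1 hb)) hlp
    have h1 : (a : ZMod p) = (b : ZMod p) := neg_injective hab
    have h2 := (ZMod.natCast_eq_natCast_iff' a b p).1 h1
    rwa [Nat.mod_eq_of_lt ha', Nat.mod_eq_of_lt hb'] at h2
  have hcard : A.card = 2 ^ l := by
    rw [hA, Finset.card_image_of_injOn hinj, Finset.card_range]
  have hsum : ∀ x : ZMod p, ∑ v ∈ range (2 ^ l), c0 χ x (i * 2 ^ l + v) =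
      ∑ a ∈ A, χ (a + (x - ((i * 2 ^ l : ℕ) : ZMod p))) := by
    intro x
    rw [hA, Finset.sum_image hinj]
    refine Finset.sum_congr rfl fun v _ => ?_
    unfold c0
    have h1 : ∀ z : ZMod p, z - ((i * 2 ^ l + v : ℕ) : ZMod p) =
        -(v : ZMod p) + (z - ((i * 2 ^ l : ℕ) : ZMod p)) := by
      intro z
      rw [Nat.cast_add]
      ring
    rw [h1 x]
  have hm := Pool.Agent.helper82.Weil.moment_one χ hχ k A
  rw [hcard, ZMod.card] at hm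
  push_cast at hm
  refine le_trans (le_of_eq ?_) hm
  simp_rw [hsum]
  rw [← Equiv.sum_comp (Equiv.subRight (((i * 2 ^ l : ℕ) : ZMod p)))
    (fun u => ‖∑ a ∈ A, χ (a + u)‖ ^ (2 * k))]
  rfl

lemma MO0_Q (p : ℕ) [Fact p.Prime] (χ : MulChar (ZMod p) ℂ) (hχ : χ ≠ 1) (k n : ℕ) (hk : 0 < k)
    (hn : 2 ^ n ≤ p) :
    ∑ x : ZMod p, Pool.Agent.PJ.Qd k n (c0 χ x) ≤
      ((n : ℝ) + 1) * ((k : ℝ) ^ (2 * k) * ((2 : ℝ) ^ n) ^ k * p +
        ((2 : ℝ) ^ n) ^ (2 * k) * (2 * k * Real.sqrt p)) := by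
  have h1 : ∑ x : ZMod p, Pool.Agent.PJ.Qd k n (c0 χ x) =
      ∑ l ∈ range (n + 1), ∑ i ∈ range (2 ^ (n - l)), ∑ x : ZMod p,
        ‖∑ v ∈ range (2 ^ l), c0 χ x (i * 2 ^ l + v)‖ ^ (2 * k) := by
    unfold Pool.Agent.PJ.Qd
    rw [Finset.sum_comm]
    refine Finset.sum_congr rfl fun l _ => ?_
    rw [Finset.sum_comm]
  rw [h1]
  have h3 : ∀ l ∈ range (n + 1), ∑ i ∈ range (2 ^ (n - l)), ∑ x : ZMod p,
        ‖∑ v ∈ range (2 ^ l), c0 χ x (i * 2 ^ l + v)‖ ^ (2 * k) ≤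
      ((k : ℝ) ^ (2 * k) * ((2 : ℝ) ^ n) ^ k * p +
        ((2 : ℝ) ^ n) ^ (2 * k) * (2 * k * Real.sqrt p)) := by
    intro l hl
    have hl' : l ≤ n := by
      have := Finset.mem_range.1 hl
      omega
    refine le_trans (Finset.sum_le_sum fun i _ => MO0_block p χ hχ k n l i hk hn hl') ?_
    rw [Finset.sum_const, Finset.card_range, nsmul_eq_mul]
    have hpow : (2 : ℝ) ^ n = (2 : ℝ) ^ (n - l) * (2 : ℝ) ^ l := by
      rw [← pow_add]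
      congr 1
      omega
    have hone : (1 : ℝ) ≤ (2 : ℝ) ^ (n - l) := one_le_pow₀ (by norm_num)
    have ha : (2 : ℝ) ^ (n - l) ≤ ((2 : ℝ) ^ (n - l)) ^ k := le_self_pow₀ hone (by omega)
    have hb : (2 : ℝ) ^ (n - l) ≤ ((2 : ℝ) ^ (n - l)) ^ (2 * k) := le_self_pow₀ hone (by omega)
    push_cast
    rw [hpow, mul_pow ((2 : ℝ) ^ (n - l)) ((2 : ℝ) ^ l) k, mul_pow ((2 : ℝ) ^ (n - l)) ((2 : ℝ) ^ l) (2 * k), mul_add]
    refine add_le_add ?_ ?_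
    · have h4 : (0 : ℝ) ≤ (k : ℝ) ^ (2 * k) * ((2 : ℝ) ^ l) ^ k * p := by positivity
      calc (2 : ℝ) ^ (n - l) * ((k : ℝ) ^ (2 * k) * ((2 : ℝ) ^ l) ^ k * p)
          ≤ ((2 : ℝ) ^ (n - l)) ^ k * ((k : ℝ) ^ (2 * k) * ((2 : ℝ) ^ l) ^ k * p) :=
            mul_le_mul_of_nonneg_right ha h4
        _ = _ := by ring
    · have h4 : (0 : ℝ) ≤ ((2 : ℝ) ^ l) ^ (2 * k) * (2 * k * Real.sqrt p) := by positivity
      calc (2 : ℝ) ^ (n - l) * (((2 : ℝ) ^ l) ^ (2 * k) * (2 * k * Real.sqrt p))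
          ≤ ((2 : ℝ) ^ (n - l)) ^ (2 * k) * (((2 : ℝ) ^ l) ^ (2 * k) * (2 * k * Real.sqrt p)) :=
            mul_le_mul_of_nonneg_right hb h4
        _ = _ := by ring
  refine le_trans (Finset.sum_le_sum h3) ?_
  rw [Finset.sum_const, Finset.card_range, nsmul_eq_mul]
  push_cast
  exact le_refl _

theorem MO0 : MO0_stmt := by
  intro p _ χ hχ k n hk hn
  have h1 : ∑ x : ZMod p, Pool.Agent.PJ.mj k n (c0 χ x) ^ (2 * k) =
      (2 * ((n : ℝ) + 1)) ^ (2 * k) * ∑ x : ZMod p, Pool.Agent.PJ.Qd k n (c0 χ x) := by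
    rw [Finset.mul_sum]
    exact Finset.sum_congr rfl fun x _ => MO0_mj_pow k n hk _
  rw [h1]
  have h2 := MO0_Q p χ hχ k n hk hn
  set R : ℝ := (k : ℝ) ^ (2 * k) * ((2 : ℝ) ^ n) ^ k * p +
        ((2 : ℝ) ^ n) ^ (2 * k) * (2 * k * Real.sqrt p) with hR
  have hR0 : 0 ≤ R := by positivity
  have h3 : (0 : ℝ) ≤ (2 * ((n : ℝ) + 1)) ^ (2 * k) := by positivity
  refine le_trans (mul_le_mul_of_nonneg_left h2 h3) ?_
  rw [pow_succ]
  have h4 : ((n : ℝ) + 1) * R ≤ 2 * ((n : ℝ) + 1) * R := by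
    have : 0 ≤ ((n : ℝ) + 1) * R := by positivity
    nlinarith
  calc (2 * ((n : ℝ) + 1)) ^ (2 * k) * (((n : ℝ) + 1) * R)
      ≤ (2 * ((n : ℝ) + 1)) ^ (2 * k) * (2 * ((n : ℝ) + 1) * R) := mul_le_mul_of_nonneg_left h4 h3
    _ = _ := by ring

end Pool.Agent.EIF
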